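import Pool.Agent.W2helper22.CU.Stmts
import Pool.Agent.H540R2.Build

/-!
# Disjunctions of substituted copies of a circuit, and the trivial circuit for the cliques
-/

set_option autoImplicit false

namespace Pool.Agent.W2helper9.CU

open Pool.Agent.H540R2 Pool.Agent.W2helper22.CU Pool.Agent.W2helper86.KQ

variable {n N : ℕ}

lemma nots_eq_sum (P : Circuit n) :
    P.nots = ∑ i ∈ Finset.range P.size, if (P.gate i).isNot = true then 1 else 0 := by
  unfold Circuit.nots
  rw [Finset.card_filter]

lemma nots_add (P : Circuit n) (g : Gate n) (hg : ∀ j, g.wires j ≠ 0 → j < P.size)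
    (h : g.isNot = false) : (P.add g hg).nots = P.nots := by
  rw [nots_eq_sum, nots_eq_sum]
  have h1 : (P.add g hg).size = P.size + 1 := rfl
  have h2 : (P.add g hg).gate = Function.update P.gate P.size g := rfl
  rw [h1, Finset.sum_range_succ, h2, Function.update_self, h]
  rw [Finset.sum_congr rfl (g := fun i => if (P.gate i).isNot = true then 1 else 0)]
  · simp
  · intro i hi
    rw [Finset.mem_range] at hi
    rw [Function.update_of_ne hi.ne]

lemma nots_setOut (P : Circuit n) (a : Node n) (ha : ∀ j, a.wires j ≠ 0 → j < P.size) :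
    (P.setOut a ha).nots = P.nots := rfl

/-- substitution of inputs, shift of the gates -/
def nsub (σ : Fin N → Fin n ⊕ Bool) (s : ℕ) : Node N → Node n
  | .var i => (σ i).elim Node.var Node.const
  | .const b => .const b
  | .gate j => .gate (s + j)

def gsub (σ : Fin N → Fin n ⊕ Bool) (s : ℕ) : Gate N → Gate n
  | .and a b => .and (nsub σ s a) (nsub σ s b)
  | .or a b => .or (nsub σ s a) (nsub σ s b)
  | .not a => .not (nsub σ s a)

lemma gsub_isNot (σ : Fin N → Fin n ⊕ Bool) (s : ℕ) (g : Gate N) :
    (gsub σ s g).isNot = g.isNot := by cases g <;> rfl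

lemma nsub_wires (σ : Fin N → Fin n ⊕ Bool) (s : ℕ) (a : Node N) (j : ℕ)
    (h : (nsub σ s a).wires j ≠ 0) : ∃ i, j = s + i ∧ a.wires i ≠ 0 := by
  cases a with
  | var i =>
    simp only [nsub] at h
    rcases hσ : σ i with k | b
    · rw [hσ] at h; exact absurd rfl h
    · rw [hσ] at h; exact absurd rfl h
  | const b => exact absurd rfl h
  | gate i =>
    simp only [nsub, Node.wires] at h
    split_ifs at h with h1
    · exact ⟨i, h1.symm, by simp [Node.wires]⟩
    · exact absurd rfl h

lemma gsub_wires (σ : Fin N → Fin n ⊕ Bool) (s : ℕ) (g : Gate N) (j : ℕ)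
    (h : (gsub σ s g).wires j ≠ 0) : ∃ i, j = s + i ∧ g.wires i ≠ 0 := by
  cases g with
  | and a b =>
    simp only [gsub, Gate.wires] at h
    by_cases ha : (nsub σ s a).wires j = 0
    · obtain ⟨i, h1, h2⟩ := nsub_wires σ s b j (by omega)
      exact ⟨i, h1, by simp only [Gate.wires]; omega⟩
    · obtain ⟨i, h1, h2⟩ := nsub_wires σ s a j ha
      exact ⟨i, h1, by simp only [Gate.wires]; omega⟩
  | or a b =>
    simp only [gsub, Gate.wires] at h
    by_cases ha : (nsub σ s a).wires j = 0
    · obtain ⟨i, h1, h2⟩ := nsub_wires σ s b j (by omega)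
      exact ⟨i, h1, by simp only [Gate.wires]; omega⟩
    · obtain ⟨i, h1, h2⟩ := nsub_wires σ s a j ha
      exact ⟨i, h1, by simp only [Gate.wires]; omega⟩
  | not a => exact nsub_wires σ s a j h

lemma nsub_eval (σ : Fin N → Fin n ⊕ Bool) (s : ℕ) (a : Node N) (x : Fin n → Bool)
    (v w : ℕ → Bool) (h : ∀ i, a.wires i ≠ 0 → v (s + i) = w i) :
    (nsub σ s a).eval x v = a.eval (sub σ x) w := by
  cases a with
  | var i =>
    simp only [nsub, Node.eval, sub]
    rcases σ i with k | b <;> rfl
  | const b => rfl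
  | gate i => exact h i (by simp [Node.wires])

lemma gsub_eval (σ : Fin N → Fin n ⊕ Bool) (s : ℕ) (g : Gate N) (x : Fin n → Bool)
    (v w : ℕ → Bool) (h : ∀ i, g.wires i ≠ 0 → v (s + i) = w i) :
    (gsub σ s g).eval x v = g.eval (sub σ x) w := by
  cases g with
  | and a b =>
    simp only [gsub, Gate.eval]
    rw [nsub_eval σ s a x v w (fun i hi => h i (by simp only [Gate.wires]; omega)),
      nsub_eval σ s b x v w (fun i hi => h i (by simp only [Gate.wires]; omega))]
  | or a b =>
    simp only [gsub, Gate.eval]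
    rw [nsub_eval σ s a x v w (fun i hi => h i (by simp only [Gate.wires]; omega)),
      nsub_eval σ s b x v w (fun i hi => h i (by simp only [Gate.wires]; omega))]
  | not a =>
    simp only [gsub, Gate.eval]
    rw [nsub_eval σ s a x v w h]

/-- Appending a copy of `C`. -/
lemma append (P : Circuit n) (C : Circuit N) (σ : Fin N → Fin n ⊕ Bool) :
    ∃ P' : Circuit n, Circuit.Ext P P' ∧ P'.size = P.size + C.size ∧ P'.nots = P.nots + C.nots ∧
      ∀ x, P'.eval x = C.eval (sub σ x) := by
  let P' : Circuit n :=
    { size := P.size + C.size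
      gate := fun i => if i < P.size then P.gate i else gsub σ P.size (C.gate (i - P.size))
      out := nsub σ P.size C.out
      gate_lt := by
        intro i hi j hj
        by_cases h : i < P.size
        · rw [if_pos h] at hj
          exact P.gate_lt i h j hj
        · rw [if_neg h] at hj
          obtain ⟨k, rfl, hk⟩ := gsub_wires σ P.size _ j hj
          have := C.gate_lt (i - P.size) (by omega) k hk
          omega
      out_lt := by
        intro j hj
        obtain ⟨k, rfl, hk⟩ := nsub_wires σ P.size _ j hj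
        have := C.out_lt k hk
        omega }
  have hg2 : ∀ i, P'.gate (P.size + i) = gsub σ P.size (C.gate i) := by
    intro i
    show (if P.size + i < P.size then P.gate (P.size + i) else
      gsub σ P.size (C.gate (P.size + i - P.size))) = _
    rw [if_neg (by omega), Nat.add_sub_cancel_left]
  have hg1 : ∀ i < P.size, P'.gate i = P.gate i := by
    intro i hi
    show (if i < P.size then P.gate i else gsub σ P.size (C.gate (i - P.size))) = _
    rw [if_pos hi]
  have hval : ∀ (x : Fin n → Bool) (i : ℕ), i < C.size →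
      P'.val x (P.size + i) = C.val (sub σ x) i := by
    intro x i
    induction i using Nat.strong_induction_on with
    | _ i ih =>
      intro hi
      rw [P'.val_gate (show P.size + i < P.size + C.size by omega), C.val_gate hi, hg2]
      apply gsub_eval
      intro j hj
      have := C.gate_lt i hi j hj
      exact ih j this (by omega)
  refine ⟨P', ⟨Nat.le_add_right _ _, hg1⟩, rfl, ?_, ?_⟩
  · rw [nots_eq_sum, nots_eq_sum, nots_eq_sum]
    show ∑ i ∈ Finset.range (P.size + C.size), _ = _
    rw [Finset.sum_range_add]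
    congr 1
    · apply Finset.sum_congr rfl
      intro i hi
      rw [hg1 i (Finset.mem_range.1 hi)]
    · apply Finset.sum_congr rfl
      intro i _
      rw [hg2, gsub_isNot]
  · intro x
    show (nsub σ P.size C.out).eval x (P'.val x) = C.out.eval (sub σ x) (C.val (sub σ x))
    apply nsub_eval
    intro i hi
    exact hval x i (C.out_lt i hi)

/-- the disjunction of the outputs of a circuit and of an extension of it -/
lemma orOf (P P' : Circuit n) (h : Circuit.Ext P P') :
    ∃ Q : Circuit n, Q.size = P'.size + 1 ∧ Q.nots = P'.nots ∧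
      ∀ x, Q.eval x = (P.eval x || P'.eval x) := by
  have hg : ∀ j, (Gate.or P.out P'.out).wires j ≠ 0 → j < P'.size := by
    intro j hj
    simp only [Gate.wires] at hj
    by_cases h1 : P.out.wires j = 0
    · exact P'.out_lt j (by omega)
    · exact lt_of_lt_of_le (P.out_lt j h1) h.1
  refine ⟨P'.add (.or P.out P'.out) hg, rfl, nots_add _ _ _ rfl, ?_⟩
  intro x
  rw [Circuit.add_eval]
  simp only [Gate.eval]
  rw [h.node_eval x P.out_lt]
  rfl

lemma nots_empty (n : ℕ) : (Circuit.empty n).nots = 0 := by
  rw [nots_eq_sum]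
  have : (Circuit.empty n).size = 0 := rfl
  rw [this, Finset.range_zero, Finset.sum_empty]

theorem p_ors : P_ORS := by
  intro N n m C σ
  suffices h : ∃ C' : Circuit n, C'.size ≤ m * (C.size + 1) ∧ C'.nots ≤ m * C.nots ∧
      ∀ x, C'.eval x = true ↔ ∃ r, C.eval (sub (σ r) x) = true by
    obtain ⟨C', h1, h2, h3⟩ := h
    exact ⟨C', h1.trans (Nat.le_succ _), h2, h3⟩
  induction m with
  | zero =>
    refine ⟨Circuit.empty n, Nat.zero_le _, ?_, ?_⟩
    · exact (nots_empty n).le.trans (Nat.zero_le _)
    · intro x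
      constructor
      · intro h
        exact absurd h (by simp [Circuit.eval, Circuit.empty, Node.eval])
      · rintro ⟨r, -⟩
        exact r.elim0
  | succ m ih =>
    obtain ⟨C1, h1, h2, h3⟩ := ih (fun r => σ r.castSucc)
    obtain ⟨C2, e, g1, g2, g3⟩ := append C1 C (σ (Fin.last m))
    obtain ⟨Q, q1, q2, q3⟩ := orOf C1 C2 e
    refine ⟨Q, ?_, ?_, ?_⟩
    · rw [q1, g1]
      have : (m + 1) * (C.size + 1) = m * (C.size + 1) + (C.size + 1) := by ring
      omega
    · rw [q2, g2]
      have : (m + 1) * C.nots = m * C.nots + C.nots := by ring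
      omega
    · intro x
      rw [q3, Bool.or_eq_true, h3, g3]
      constructor
      · rintro (⟨r, hr⟩ | h)
        · exact ⟨r.castSucc, hr⟩
        · exact ⟨Fin.last m, h⟩
      · rintro ⟨r, hr⟩
        rcases Fin.eq_castSucc_or_eq_last r with ⟨r', rfl⟩ | rfl
        · exact Or.inl ⟨r', hr⟩
        · exact Or.inr hr

/-! ### TRIV -/

/-- the conjunction of some inputs -/
lemma andOf (P : Circuit n) (l : List (Fin n)) :
    ∃ P' : Circuit n, Circuit.Ext P P' ∧ P'.size = P.size + l.length ∧ P'.nots = P.nots ∧
      ∀ x, P'.eval x = true ↔ ∀ e ∈ l, x e = true := by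
  induction l with
  | nil =>
    have hc : ∀ j, (Node.const true : Node n).wires j ≠ 0 → j < P.size :=
      fun j hj => absurd rfl hj
    refine ⟨P.setOut (.const true) hc, P.setOut_ext _ _, rfl, rfl, ?_⟩
    intro x
    rw [Circuit.setOut_eval]
    simp [Node.eval]
  | cons e l ih =>
    obtain ⟨P1, h1, h2, h3, h4⟩ := ih
    have hg : ∀ j, (Gate.and P1.out (.var e)).wires j ≠ 0 → j < P1.size := by
      intro j hj
      have h5 : (Node.var e : Node n).wires j = 0 := rfl
      simp only [Gate.wires] at hj
      exact P1.out_lt j (by omega)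
    refine ⟨P1.add (.and P1.out (.var e)) hg, h1.trans (P1.add_ext _ _), ?_, ?_, ?_⟩
    · show P1.size + 1 = _
      rw [h2, List.length_cons]; omega
    · rw [nots_add _ _ _ rfl, h3]
    · intro x
      rw [Circuit.add_eval]
      have h5 : (Gate.and P1.out (.var e)).eval x (P1.val x) = (P1.eval x && x e) := rfl
      rw [h5, Bool.and_eq_true, h4]
      simp only [List.mem_cons, forall_eq_or_imp]
      tauto

lemma orAnd (L : List (List (Fin n))) (q : ℕ) (hL : ∀ l ∈ L, l.length ≤ q) :
    ∃ P : Circuit n, P.size ≤ (q + 1) * L.length ∧ P.nots = 0 ∧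
      ∀ x, P.eval x = true ↔ ∃ l ∈ L, ∀ e ∈ l, x e = true := by
  induction L with
  | nil =>
    refine ⟨Circuit.empty n, Nat.zero_le _, nots_empty n, ?_⟩
    · intro x
      simp [Circuit.eval, Circuit.empty, Node.eval]
  | cons l L ih =>
    obtain ⟨P, h1, h2, h3⟩ := ih (fun l hl => hL l (List.mem_cons_of_mem _ hl))
    obtain ⟨P1, e, g1, g2, g3⟩ := andOf P l
    obtain ⟨Q, q1, q2, q3⟩ := orOf P P1 e
    refine ⟨Q, ?_, ?_, ?_⟩
    · rw [q1, g1, List.length_cons]
      have := hL l List.mem_cons_self
      have e2 : (q + 1) * (L.length + 1) = (q + 1) * L.length + (q + 1) := by ring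
      omega
    · rw [q2, g2, h2]
    · intro x
      rw [q3, Bool.or_eq_true, h3, g3]
      simp only [List.mem_cons, exists_eq_or_imp]
      exact Or.comm

lemma graph_adj {n : ℕ} (x : Fin (n.choose 2) → Bool) (i j : Fin n) :
    (graph x).Adj i j ↔ (∃ h : i < j, x (pairNo n ⟨(i, j), h⟩) = true) ∨
      ∃ h : j < i, x (pairNo n ⟨(j, i), h⟩) = true := by
  unfold graph
  rw [SimpleGraph.fromRel_adj]
  constructor
  · exact fun h => h.2
  · intro h
    refine ⟨?_, h⟩
    rintro rfl
    rcases h with ⟨h, -⟩ | ⟨h, -⟩ <;> exact lt_irrefl _ h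

theorem p_triv : P_TRIV := by
  classical
  intro n k H hk
  set S : Finset (Finset (Fin n)) := Finset.univ.filter (fun s => H.IsNClique k s) with hS
  let pr : Finset (Fin n) → List (Fin (n.choose 2)) := fun s =>
    (((Finset.univ : Finset {p : Fin n × Fin n // p.1 < p.2}).filter
      (fun p => p.1.1 ∈ s ∧ p.1.2 ∈ s)).image (pairNo n)).toList
  have hpr : ∀ s ∈ S, (pr s).length ≤ k ^ 2 := by
    intro s hs
    rw [hS, Finset.mem_filter] at hs
    simp only [pr]
    rw [Finset.length_toList]
    refine Finset.card_image_le.trans ?_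
    have hc : s.card = k := hs.2.card_eq
    have h1 : ((Finset.univ : Finset {p : Fin n × Fin n // p.1 < p.2}).filter
      (fun p => p.1.1 ∈ s ∧ p.1.2 ∈ s)).card ≤ (s ×ˢ s).card := by
      apply Finset.card_le_card_of_injOn (fun p => p.1)
      · intro p hp
        rw [Finset.mem_coe, Finset.mem_filter] at hp
        rw [Finset.mem_coe, Finset.mem_product]
        exact hp.2
      · intro p _ q _ hpq
        exact Subtype.ext hpq
    rw [Finset.card_product, hc] at h1
    rw [pow_two]
    exact h1
  obtain ⟨C, h1, h2, h3⟩ := orAnd (S.toList.map pr) (k ^ 2) (by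
    intro l hl
    rw [List.mem_map] at hl
    obtain ⟨s, hs, rfl⟩ := hl
    exact hpr s (Finset.mem_toList.1 hs))
  refine ⟨C, h2, ?_, ?_⟩
  · rw [List.length_map, Finset.length_toList] at h1
    have h4 : cliques H k = S.card := by
      unfold cliques
      rw [Set.ncard_eq_toFinset_card']
      congr 1
      ext s
      simp [hS]
    rw [h4]
    omega
  · intro x hx
    rw [h3]
    have key : ∀ s : Finset (Fin n), (∀ e ∈ pr s, x e = true) ↔
        ∀ i ∈ s, ∀ j ∈ s, ∀ h : i < j, x (pairNo n ⟨(i, j), h⟩) = true := by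
      intro s
      simp only [pr, Finset.mem_toList, Finset.mem_image, Finset.mem_filter, Finset.mem_univ,
        true_and]
      constructor
      · intro h i hi j hj hij
        exact h _ ⟨⟨(i, j), hij⟩, ⟨hi, hj⟩, rfl⟩
      · rintro h e ⟨⟨⟨i, j⟩, hij⟩, ⟨hi, hj⟩, rfl⟩
        exact h i hi j hj hij
    constructor
    · rintro ⟨l, hl, hle⟩
      rw [List.mem_map] at hl
      obtain ⟨s, hs, rfl⟩ := hl
      rw [Finset.mem_toList, hS, Finset.mem_filter] at hs
      rw [key] at hle
      intro hfree
      apply hfree s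
      rw [SimpleGraph.isNClique_iff]
      refine ⟨?_, hs.2.card_eq⟩
      intro i hi j hj hij
      rw [graph_adj]
      rcases lt_or_gt_of_ne hij with h | h
      · exact Or.inl ⟨h, hle i hi j hj h⟩
      · exact Or.inr ⟨h, hle j hj i hi h⟩
    · intro hfree
      unfold SimpleGraph.CliqueFree at hfree
      push Not at hfree
      obtain ⟨s, hs⟩ := hfree
      refine ⟨pr s, ?_, ?_⟩
      · rw [List.mem_map]
        refine ⟨s, ?_, rfl⟩
        rw [Finset.mem_toList, hS, Finset.mem_filter]
        exact ⟨Finset.mem_univ _, hs.mono hx⟩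
      · rw [key]
        intro i hi j hj hij
        have h4 := hs.isClique hi hj hij.ne
        rw [graph_adj] at h4
        rcases h4 with ⟨h, h5⟩ | ⟨h, h5⟩
        · exact h5
        · exact absurd h (lt_asymm hij)

end Pool.Agent.W2helper9.CU
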